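import Pool.Agent.Helper45.LGB.St

set_option autoImplicit false

/-!
Module LOC of project LGB (owner helper45, problem MP_97dcad_al): words with a letter which is far
from the set `S` kill a vector which is localised at `S`.
-/

namespace Pool.Agent.Helper66.LGB

open Pool.Agent.Helper45.LGB

/-- The product of a list of operators which preserve `M` preserves `M`. -/
private lemma prod_mem {p : ℕ} {V : Type} [AddCommGroup V] [Module (ZMod p) V]
    (M : Submodule (ZMod p) V) (L : List (Module.End (ZMod p) V))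
    (hL : ∀ a ∈ L, ∀ w ∈ M, a w ∈ M) (w : V) (hw : w ∈ M) : L.prod w ∈ M := by
  induction L with
  | nil => simpa using hw
  | cons a L ih =>
    have h1 : L.prod w ∈ M := ih (fun b hb => hL b (List.mem_cons_of_mem a hb))
    have h2 : a (L.prod w) ∈ M := hL a List.mem_cons_self _ h1
    rw [List.prod_cons]
    exact h2

/-- If one entry `b` of the list `L` maps `M` to `W'`, the product maps `M` to `W'`. -/
private lemma prod_kill {p : ℕ} {V : Type} [AddCommGroup V] [Module (ZMod p) V]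
    (M W' : Submodule (ZMod p) V) (L : List (Module.End (ZMod p) V))
    (hM : ∀ a ∈ L, ∀ w ∈ M, a w ∈ M) (hW : ∀ a ∈ L, ∀ w ∈ W', a w ∈ W')
    (b : Module.End (ZMod p) V) (hb : b ∈ L) (hbM : ∀ w ∈ M, b w ∈ W') (w : V) (hw : w ∈ M) :
    L.prod w ∈ W' := by
  obtain ⟨L₁, L₂, rfl⟩ := List.append_of_mem hb
  have h1 : L₂.prod w ∈ M := prod_mem M L₂
    (fun a ha => hM a (List.mem_append_right _ (List.mem_cons_of_mem b ha))) w hw
  have h2 : b (L₂.prod w) ∈ W' := hbM _ h1
  have h3 : L₁.prod (b (L₂.prod w)) ∈ W' := prod_mem W' L₁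
    (fun a ha => hW a (List.mem_append_left _ ha)) _ h2
  rw [List.prod_append, List.prod_cons]
  exact h3

/-- Every element of `zipWith g us ss` is `g u s` with `u ∈ us`, `s ∈ ss`. -/
private lemma mem_zip {α β γ : Type} (g : α → β → γ) (us : List α) (ss : List β) (c : γ)
    (hc : c ∈ List.zipWith g us ss) : ∃ u ∈ us, ∃ s ∈ ss, c = g u s := by
  induction us generalizing ss with
  | nil => simp at hc
  | cons u us ih =>
    cases ss with
    | nil => simp at hc
    | cons s ss =>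
      rw [List.zipWith_cons_cons, List.mem_cons] at hc
      rcases hc with rfl | hc
      · exact ⟨u, List.mem_cons_self, s, List.mem_cons_self, rfl⟩
      · obtain ⟨u', hu', s', hs', h⟩ := ih ss hc
        exact ⟨u', List.mem_cons_of_mem _ hu', s', List.mem_cons_of_mem _ hs', h⟩

/-- If `u ∈ us` and the lists have the same length, some `g u s` is in the list. -/
private lemma zip_mem {α β γ : Type} (g : α → β → γ) (us : List α) (ss : List β)
    (hl : us.length = ss.length) (u : α) (hu : u ∈ us) :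
    ∃ s ∈ ss, g u s ∈ List.zipWith g us ss := by
  induction us generalizing ss with
  | nil => simp at hu
  | cons u' us ih =>
    cases ss with
    | nil => simp at hl
    | cons s ss =>
      rw [List.zipWith_cons_cons]
      rw [List.mem_cons] at hu
      rcases hu with rfl | hu
      · exact ⟨s, List.mem_cons_self, List.mem_cons_self⟩
      · obtain ⟨s', hs', h⟩ := ih ss (by simpa using hl) hu
        exact ⟨s', List.mem_cons_of_mem _ hs', List.mem_cons_of_mem _ h⟩

theorem hLOC (hNRT : StNRT) (hLST : StLST) (hNLV : StNLV) (hFIL : StFIL) (hCOL : StCOL)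
    (hKIL : StKIL) (hBRK : StBRK) (hCON : StCON) (hEXP : StEXP) : StLOC := by
  intro p m r q _ hmp hPP ι E V _ _ f Y S W W' v hC hv hS w hwY y hyw hfar
  obtain ⟨hSy, hCmm, hWW, hYW, hYW', hNil⟩ := id hC
  obtain ⟨hl1, hl2, hl3, hl4, hl5, hl6, hl7, hl8, hl9⟩ := hLST p ι V f Y
  obtain ⟨hf1, hf2, hf3, hf4, hf5, hf6⟩ := hFIL p ι V f Y W W' v hWW hYW hYW' hv
  have hZY : {i | i ∈ Y ∧ i ∉ S} ⊆ Y := fun i hi => hi.1
  have hZv : ∀ z ∈ {i | i ∈ Y ∧ i ∉ S}, f z v ∈ W' := fun z hz => hS z hz.1 hz.2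
  -- words of `Z` with `q + 1` far letters map `Wone` to `W'`
  obtain ⟨hC1, -⟩ := hNLV p m ι E V f Y {i | i ∈ Y ∧ i ∉ S} W W' v hC hv hZY hZv
  have hk1 : ∀ u : List ι, (∀ i ∈ u, i ∈ {i | i ∈ Y ∧ i ∉ S}) → Pk E r (q + 1) (ltr u) →
      ∀ w ∈ Wone f Y v W', act f u w ∈ W' :=
    fun u hu hpk z hz => hPP ι E V f _ _ _ hC1 u hu hpk z hz
  -- words of `Z` with `Q` far letters map `M` to `W'`
  have hk2 := hKIL p m ι E V f Y {i | i ∈ Y ∧ i ∉ S} W W' v r q hWW hYW hYW' hv hZY hZv hk1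
  -- `M` is stable
  have hMst : ∀ ν : Module.End (ZMod p) V, Lam f Y ν → ∀ w ∈ Mf f Y v W' m,
      ν w ∈ Mf f Y v W' m := fun ν hν w hw =>
    hCOL p m ι E V f Y W W' v hmp hC hv (m + 1) (hf4 m ν hν w hw)
  have hMY : Stb f Y (Mf f Y v W' m) := fun i hi w hw => hMst (f i) (Lam.gen i hi) w hw
  have hvM : v ∈ Mf f Y v W' m := hf1 0 m (Nat.zero_le m) hf3
  -- expansion
  have hexp := hEXP p ι V f Y S W' v hYW' hS w hwY
  refine (sup_le ?_ le_rfl : Submodule.span (ZMod p) _ ⊔ W' ≤ W') hexp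
  rw [Submodule.span_le]
  rintro z ⟨ss, us, hlen, hss, hus, hw2, rfl⟩
  have hyS : y ∉ S := fun h => hfar y h (hwY y hyw) ((hNRT ι E).1 _ y)
  obtain ⟨u, hu, hyu⟩ := (hw2 y hyw).resolve_left hyS
  obtain ⟨s, hs, hb⟩ := zip_mem (fun u s => ad f u (f s)) us ss hlen u hu
  have hLam : ∀ a ∈ List.zipWith (fun u s => ad f u (f s)) us ss, Lam f Y a := by
    intro a ha
    obtain ⟨u', hu', s', hs', rfl⟩ := mem_zip _ us ss a ha
    exact hl5 u' (f s') (fun i hi => (hus u' hu' i hi).1) (Lam.gen s' (hss s' hs').1)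
  refine prod_kill (Mf f Y v W' m) W' _ (fun a ha => hMst a (hLam a ha))
    (fun a ha => hl1 W' hYW' a (hLam a ha)) _ hb ?_ v hvM
  intro w' hw'
  by_cases h0 : ad f u (f s) = 0
  · show (ad f u (f s)) w' ∈ W'
    rw [h0, LinearMap.zero_apply]
    exact W'.zero_mem
  · have hpk := hCON p ι E V f hSy hCmm s u h0 y hyu r (2 * ((m + 1) * (m * q + 1)) - 1)
      (hfar s (hss s hs).2 (hss s hs).1)
    exact hBRK p ι E V f Y {i | i ∈ Y ∧ i ∉ S} (Mf f Y v W' m) W' r ((m + 1) * (m * q + 1))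
      (Nat.mul_pos (Nat.succ_pos m) (Nat.succ_pos _)) hMY hYW' hZY hk2 s (hss s hs).1 u
      (fun i hi => hus u hu i hi) hpk w' hw'

end Pool.Agent.Helper66.LGB
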